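import Mathlib
import Pool.Agent.Y748.SR.Stm7
import Pool.Agent.Y748.SR.Rho2

set_option autoImplicit false
set_option linter.all false

/-! # Project SR, part 4: the functional of intervals from the grids -/

namespace Pool.Agent.Y447.SR4

open Filter Topology MeasureTheory Pool.Agent.Y748.SR

/-! ### disjoint intervals -/

section dis

variable {k : ℕ} {a b : Fin k → ℝ}

theorem dis_left (h : Dis a b) {i : Fin k} {c : ℝ} (h1 : a i < c) (h2 : c ≤ b i) :
    Dis a (Function.update b i c) := by
  refine ⟨fun j => ?_, fun j l hjl => ?_⟩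
  · by_cases hj : j = i
    · subst hj
      rw [Function.update_self]
      exact h1
    · rw [Function.update_of_ne hj]
      exact h.1 j
  · by_cases hj : j = i
    · subst hj
      rw [Function.update_self]
      exact h2.trans (h.2 j l hjl)
    · rw [Function.update_of_ne hj]
      exact h.2 j l hjl

theorem dis_right (h : Dis a b) {i : Fin k} {c : ℝ} (h1 : a i ≤ c) (h2 : c < b i) :
    Dis (Function.update a i c) b := by
  refine ⟨fun j => ?_, fun j l hjl => ?_⟩
  · by_cases hj : j = i
    · subst hj
      rw [Function.update_self]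
      exact h2
    · rw [Function.update_of_ne hj]
      exact h.1 j
  · by_cases hl : l = i
    · subst hl
      rw [Function.update_self]
      exact (h.2 j l hjl).trans h1
    · rw [Function.update_of_ne hl]
      exact h.2 j l hjl

/-- the volume -/
noncomputable def vl (a b : Fin k → ℝ) : ℝ := ∏ i, (b i - a i)

theorem vl_add (i : Fin k) (c : ℝ) :
    vl a b = vl a (Function.update b i c) + vl (Function.update a i c) b := by
  unfold vl
  rw [← Finset.mul_prod_erase _ _ (Finset.mem_univ i),
    ← Finset.mul_prod_erase _ (fun j => Function.update b i c j - a j) (Finset.mem_univ i),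
    ← Finset.mul_prod_erase _ (fun j => b j - Function.update a i c j) (Finset.mem_univ i)]
  have h1 : ∏ j ∈ Finset.univ.erase i, (Function.update b i c j - a j) =
      ∏ j ∈ Finset.univ.erase i, (b j - a j) := by
    refine Finset.prod_congr rfl fun j hj => ?_
    rw [Function.update_of_ne (Finset.ne_of_mem_erase hj)]
  have h2 : ∏ j ∈ Finset.univ.erase i, (b j - Function.update a i c j) =
      ∏ j ∈ Finset.univ.erase i, (b j - a j) := by
    refine Finset.prod_congr rfl fun j hj => ?_
    rw [Function.update_of_ne (Finset.ne_of_mem_erase hj)]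
  rw [h1, h2, Function.update_self, Function.update_self]
  ring

/-- additive functionals between zero and the volume -/
structure Ad (F : (Fin k → ℝ) → (Fin k → ℝ) → ℝ) : Prop where
  nn : ∀ a b, Dis a b → 0 ≤ F a b
  le : ∀ a b, Dis a b → F a b ≤ vl a b
  ad : ∀ a b i c, Dis a b → a i < c → c < b i →
    F a b = F a (Function.update b i c) + F (Function.update a i c) b

variable {F : (Fin k → ℝ) → (Fin k → ℝ) → ℝ}

theorem cut_right (hF : Ad F) (h : Dis a b) {i : Fin k} {c : ℝ} (h1 : a i ≤ c) (h2 : c < b i) :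
    F (Function.update a i c) b ≤ F a b ∧
      F a b - F (Function.update a i c) b ≤ vl a b - vl (Function.update a i c) b := by
  rcases h1.eq_or_lt with h3 | h3
  · rw [← h3, Function.update_eq_self]
    exact ⟨le_rfl, by rw [sub_self, sub_self]⟩
  · have h4 := hF.ad a b i c h h3 h2
    have h5 := dis_left h h3 h2.le
    have h6 := hF.nn _ _ h5
    have h7 := hF.le _ _ h5
    have h8 := vl_add (a := a) (b := b) i c
    exact ⟨by linarith, by linarith⟩

theorem cut_left (hF : Ad F) (h : Dis a b) {i : Fin k} {c : ℝ} (h1 : a i < c) (h2 : c ≤ b i) :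
    F a (Function.update b i c) ≤ F a b ∧
      F a b - F a (Function.update b i c) ≤ vl a b - vl a (Function.update b i c) := by
  rcases h2.eq_or_lt with h3 | h3
  · rw [h3, Function.update_eq_self]
    exact ⟨le_rfl, by rw [sub_self, sub_self]⟩
  · have h4 := hF.ad a b i c h h1 h3
    have h5 := dis_right h h1.le h3
    have h6 := hF.nn _ _ h5
    have h7 := hF.le _ _ h5
    have h8 := vl_add (a := a) (b := b) i c
    exact ⟨by linarith, by linarith⟩

theorem cut_rights (hF : Ad F) (h : Dis a b) {a' : Fin k → ℝ} (h1 : ∀ i, a i ≤ a' i)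
    (h2 : ∀ i, a' i < b i) (S : Finset (Fin k)) : Dis (S.piecewise a' a) b ∧
    F (S.piecewise a' a) b ≤ F a b ∧
      F a b - F (S.piecewise a' a) b ≤ vl a b - vl (S.piecewise a' a) b := by
  classical
  induction S using Finset.induction_on with
  | empty =>
    rw [Finset.piecewise_empty]
    exact ⟨h, le_rfl, by rw [sub_self, sub_self]⟩
  | insert i S hi ih =>
    obtain ⟨h3, h4, h5⟩ := ih
    rw [Finset.piecewise_insert]
    have h6 : S.piecewise a' a i ≤ a' i := by
      rw [Finset.piecewise_eq_of_notMem _ _ _ hi]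
      exact h1 i
    obtain ⟨h7, h8⟩ := cut_right hF h3 h6 (h2 i)
    exact ⟨dis_right h3 h6 (h2 i), by linarith, by linarith⟩

theorem cut_lefts (hF : Ad F) (h : Dis a b) {b' : Fin k → ℝ} (h1 : ∀ i, a i < b' i)
    (h2 : ∀ i, b' i ≤ b i) (S : Finset (Fin k)) : Dis a (S.piecewise b' b) ∧
    F a (S.piecewise b' b) ≤ F a b ∧
      F a b - F a (S.piecewise b' b) ≤ vl a b - vl a (S.piecewise b' b) := by
  classical
  induction S using Finset.induction_on with
  | empty =>
    rw [Finset.piecewise_empty]
    exact ⟨h, le_rfl, by rw [sub_self, sub_self]⟩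
  | insert i S hi ih =>
    obtain ⟨h3, h4, h5⟩ := ih
    rw [Finset.piecewise_insert]
    have h6 : b' i ≤ S.piecewise b' b i := by
      rw [Finset.piecewise_eq_of_notMem _ _ _ hi]
      exact h2 i
    obtain ⟨h7, h8⟩ := cut_left hF h3 (h1 i) h6
    exact ⟨dis_left h3 (h1 i) h6, by linarith, by linarith⟩

/-- inner boxes -/
theorem close (hF : Ad F) (h : Dis a b) {a' b' : Fin k → ℝ} (h1 : ∀ i, a i ≤ a' i)
    (h2 : ∀ i, a' i < b' i) (h3 : ∀ i, b' i ≤ b i) :
    |F a b - F a' b'| ≤ vl a b - vl a' b' := by
  classical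
  obtain ⟨g1, g2, g3⟩ := cut_rights hF h h1 (fun i => (h2 i).trans_le (h3 i)) Finset.univ
  rw [Finset.piecewise_univ] at g1 g2 g3
  obtain ⟨g4, g5, g6⟩ := cut_lefts hF g1 h2 h3 Finset.univ
  rw [Finset.piecewise_univ] at g4 g5 g6
  rw [abs_of_nonneg (by linarith)]
  linarith

end dis

/-! ### boxes of the grid -/

section cells

variable {k : ℕ} {F I : (Fin k → ℝ) → (Fin k → ℝ) → ℝ}

theorem dis_int {M : ℕ} (hM : 1 ≤ M) {p q : Fin k → ℤ} (h1 : ∀ i, p i < q i)
    (h2 : ∀ i j, i < j → q i ≤ p j) :
    Dis (fun i => (p i : ℝ) / M) (fun i => (q i : ℝ) / M) := by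
  have hM' : (0 : ℝ) < M := by exact_mod_cast hM
  refine ⟨fun i => ?_, fun i j hij => ?_⟩
  · have : (p i : ℝ) < q i := by exact_mod_cast h1 i
    exact div_lt_div_of_pos_right this hM'
  · have : (q i : ℝ) ≤ p j := by exact_mod_cast h2 i j hij
    exact div_le_div_of_nonneg_right this hM'.le

theorem upd_int (M : ℕ) (q : Fin k → ℤ) (i : Fin k) (r : ℤ) :
    Function.update (fun j => (q j : ℝ) / M) i ((r : ℝ) / M) =
      fun j => ((Function.update q i r j : ℤ) : ℝ) / M := by
  funext j
  by_cases hj : j = i
  · subst hj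
    rw [Function.update_self, Function.update_self]
  · rw [Function.update_of_ne hj, Function.update_of_ne hj]

theorem cells_eq (hF : Ad F) (hI : Ad I) {M : ℕ} (hM : 1 ≤ M)
    (hc : ∀ c : Fin k → ℤ, StrictMono c → F (fun i => (c i : ℝ) / M) (fun i => ((c i : ℝ) + 1) / M) =
      I (fun i => (c i : ℝ) / M) (fun i => ((c i : ℝ) + 1) / M)) (n : ℕ) :
    ∀ p q : Fin k → ℤ, (∀ i, p i < q i) → (∀ i j, i < j → q i ≤ p j) →
    (∑ i, (q i - p i)).toNat ≤ n →
    F (fun i => (p i : ℝ) / M) (fun i => (q i : ℝ) / M) =
      I (fun i => (p i : ℝ) / M) (fun i => (q i : ℝ) / M) := by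
  have hM' : (0 : ℝ) < M := by exact_mod_cast hM
  induction n with
  | zero =>
    intro p q h1 h2 h3
    by_cases hk : k = 0
    · subst hk
      have e1 : ∀ r : Fin 0 → ℤ, StrictMono r := fun r i => i.elim0
      have e2 : (fun i => (q i : ℝ) / M) = fun i => ((p i : ℝ) + 1) / M := by
        funext i
        exact i.elim0
      rw [e2]
      exact hc p (e1 p)
    · exfalso
      have h4 : 0 < ∑ i, (q i - p i) := by
        apply Finset.sum_pos
        · intro i _
          have := h1 i
          omega
        · exact ⟨⟨0, Nat.pos_of_ne_zero hk⟩, Finset.mem_univ _⟩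
      omega
  | succ n ih =>
    intro p q h1 h2 h3
    by_cases hall : ∀ i, q i = p i + 1
    · have e2 : (fun i => (q i : ℝ) / M) = fun i => ((p i : ℝ) + 1) / M := by
        funext i
        rw [hall i]
        push_cast
        rfl
      rw [e2]
      apply hc
      intro i j hij
      have := h2 i j hij
      rw [hall i] at this
      omega
    · push Not at hall
      obtain ⟨i, hi⟩ := hall
      have hi1 : p i + 1 < q i := by
        have := h1 i
        omega
      have hd := dis_int hM h1 h2
      have c1 : (fun i => (p i : ℝ) / M) i < ((p i + 1 : ℤ) : ℝ) / M := by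
        apply div_lt_div_of_pos_right _ hM'
        push_cast
        linarith
      have c2 : ((p i + 1 : ℤ) : ℝ) / M < (fun i => (q i : ℝ) / M) i := by
        apply div_lt_div_of_pos_right _ hM'
        exact_mod_cast hi1
      have s0 : ∀ f : Fin k → ℤ, ∑ j, f j = f i + ∑ j ∈ Finset.univ.erase i, f j := fun f =>
        (Finset.add_sum_erase _ _ (Finset.mem_univ i)).symm
      have hpos : 0 ≤ ∑ j ∈ Finset.univ.erase i, (q j - p j) :=
        Finset.sum_nonneg fun j _ => by
          have := h1 j
          omega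
      have s1 : ∑ j, (Function.update q i (p i + 1) j - p j) =
          1 + ∑ j ∈ Finset.univ.erase i, (q j - p j) := by
        rw [s0, Function.update_self]
        congr 1
        · ring
        · refine Finset.sum_congr rfl fun j hj => ?_
          rw [Function.update_of_ne (Finset.ne_of_mem_erase hj)]
      have s2 : ∑ j, (q j - Function.update p i (p i + 1) j) =
          (q i - (p i + 1)) + ∑ j ∈ Finset.univ.erase i, (q j - p j) := by
        rw [s0, Function.update_self]
        congr 1
        refine Finset.sum_congr rfl fun j hj => ?_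
        rw [Function.update_of_ne (Finset.ne_of_mem_erase hj)]
      have s3 := s0 fun j => q j - p j
      rw [hF.ad _ _ i (((p i + 1 : ℤ) : ℝ) / M) hd c1 c2,
        hI.ad _ _ i (((p i + 1 : ℤ) : ℝ) / M) hd c1 c2, upd_int, upd_int]
      congr 1
      · apply ih p (Function.update q i (p i + 1))
        · intro j
          by_cases hj : j = i
          · subst hj
            rw [Function.update_self]
            omega
          · rw [Function.update_of_ne hj]
            exact h1 j
        · intro j l hjl
          by_cases hj : j = i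
          · subst hj
            rw [Function.update_self]
            have := h2 j l hjl
            omega
          · rw [Function.update_of_ne hj]
            exact h2 j l hjl
        · rw [s1]
          rw [s3] at h3
          omega
      · apply ih (Function.update p i (p i + 1)) q
        · intro j
          by_cases hj : j = i
          · subst hj
            rw [Function.update_self]
            omega
          · rw [Function.update_of_ne hj]
            exact h1 j
        · intro j l hjl
          by_cases hl : l = i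
          · subst hl
            rw [Function.update_self]
            have := h2 j l hjl
            omega
          · rw [Function.update_of_ne hl]
            exact h2 j l hjl
        · rw [s2]
          rw [s3] at h3
          omega

end cells

/-! ### integrals over boxes -/

section integrals

variable {k : ℕ}

/-- half-open boxes -/
def bx (a b : Fin k → ℝ) : Set (Fin k → ℝ) := Set.univ.pi fun i => Set.Ico (a i) (b i)

theorem bx_meas (a b : Fin k → ℝ) : MeasurableSet (bx a b) :=
  MeasurableSet.univ_pi fun i => measurableSet_Ico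

theorem bx_vol {a b : Fin k → ℝ} (h : ∀ i, a i ≤ b i) : volume.real (bx a b) = vl a b := by
  rw [measureReal_def]
  exact Real.volume_pi_Ico_toReal h

theorem bx_fin (a b : Fin k → ℝ) : volume (bx a b) ≠ ⊤ := by
  unfold bx
  rw [Real.volume_pi_Ico]
  exact ENNReal.prod_ne_top fun i _ => ENNReal.ofReal_ne_top

theorem bx_split {a b : Fin k → ℝ} {i : Fin k} {c : ℝ} (h1 : a i < c) (h2 : c < b i) :
    bx a b = bx a (Function.update b i c) ∪ bx (Function.update a i c) b := by
  ext x
  simp only [bx, Set.mem_univ_pi, Set.mem_Ico, Set.mem_union]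
  constructor
  · intro h
    rcases lt_or_ge (x i) c with h3 | h3
    · left
      intro j
      by_cases hj : j = i
      · subst hj
        rw [Function.update_self]
        exact ⟨(h j).1, h3⟩
      · rw [Function.update_of_ne hj]
        exact h j
    · right
      intro j
      by_cases hj : j = i
      · subst hj
        rw [Function.update_self]
        exact ⟨h3, (h j).2⟩
      · rw [Function.update_of_ne hj]
        exact h j
  · rintro (h | h) j
    · have h3 := h j
      by_cases hj : j = i
      · subst hj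
        rw [Function.update_self] at h3
        exact ⟨h3.1, h3.2.trans h2⟩
      · rw [Function.update_of_ne hj] at h3
        exact h3
    · have h3 := h j
      by_cases hj : j = i
      · subst hj
        rw [Function.update_self] at h3
        exact ⟨h1.le.trans h3.1, h3.2⟩
      · rw [Function.update_of_ne hj] at h3
        exact h3

theorem bx_disj {a b : Fin k → ℝ} {i : Fin k} {c : ℝ} :
    Disjoint (bx a (Function.update b i c)) (bx (Function.update a i c) b) := by
  rw [Set.disjoint_left]
  intro x hx hx'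
  have h1 := (Set.mem_univ_pi.1 hx i).2
  have h2 := (Set.mem_univ_pi.1 hx' i).1
  simp only [Function.update_self] at h1 h2
  linarith

theorem ad_int {g : (Fin k → ℝ) → ℝ} (hg : Measurable g) (h0 : ∀ x, 0 ≤ g x) (h1 : ∀ x, g x ≤ 1) :
    Ad fun a b => ∫ x in bx a b, g x := by
  have hi : ∀ a b : Fin k → ℝ, IntegrableOn g (bx a b) := by
    intro a b
    refine Measure.integrableOn_of_bounded (bx_fin a b) hg.aestronglyMeasurable (M := 1)
      (Eventually.of_forall fun x => ?_)
    rw [Real.norm_of_nonneg (h0 x)]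
    exact h1 x
  refine ⟨fun a b _ => setIntegral_nonneg (bx_meas a b) fun x _ => h0 x, ?_, ?_⟩
  · intro a b h
    have h2 : ∫ x in bx a b, g x ≤ ∫ x in bx a b, (1 : ℝ) :=
      setIntegral_mono (hi a b) (integrableOn_const (bx_fin a b)) h1
    refine h2.trans ?_
    rw [setIntegral_const, bx_vol fun i => (h.1 i).le, smul_eq_mul, mul_one]
  · intro a b i c h h2 h3
    show ∫ x in bx a b, g x = (∫ x in bx a (Function.update b i c), g x) +
      ∫ x in bx (Function.update a i c) b, g x
    rw [bx_split h2 h3, setIntegral_union bx_disj (bx_meas _ _) (hi _ _) (hi _ _)]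

end integrals

/-! ### the grid -/

section grd

variable {m : Mom}

theorem grid_eq (M : ℕ) (B : Finset ℤ) (k : ℕ) (h : B.card = k) :
    grid m M B = (M : ℝ) ^ k * m k (fun i => ((B.orderEmbOfFin h i : ℤ) : ℝ) / M)
      (fun i => (((B.orderEmbOfFin h i : ℤ) : ℝ) + 1) / M) := by
  subst h
  rfl

theorem grid_image (M : ℕ) {k : ℕ} (c : Fin k → ℤ) (hc : StrictMono c) :
    grid m M (Finset.univ.image c) = (M : ℝ) ^ k * m k (fun i => (c i : ℝ) / M)
      (fun i => ((c i : ℝ) + 1) / M) := by
  have h : (Finset.univ.image c).card = k := by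
    rw [Finset.card_image_of_injective _ hc.injective, Finset.card_univ, Fintype.card_fin]
  rw [grid_eq M _ k h]
  have h2 : ⇑((Finset.univ.image c).orderEmbOfFin h) = c :=
    (Finset.orderEmbOfFin_unique h (fun i => Finset.mem_image_of_mem _ (Finset.mem_univ i))
      hc).symm
  rw [h2]

theorem dis_emb {M : ℕ} (hM : 1 ≤ M) {k : ℕ} (c : Fin k → ℤ) (hc : StrictMono c) :
    Dis (fun i => (c i : ℝ) / M) (fun i => ((c i : ℝ) + 1) / M) := by
  have h := dis_int (k := k) hM (p := c) (q := fun i => c i + 1) (fun i => by omega)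
    (fun i j hij => by have := hc hij; omega)
  have e2 : (fun i => (((fun i => c i + 1) i : ℤ) : ℝ) / M) = fun i => ((c i : ℝ) + 1) / M := by
    funext i
    push_cast
    rfl
  rwa [e2] at h

theorem vl_cell (M : ℕ) {k : ℕ} (c : Fin k → ℤ) :
    vl (fun i => (c i : ℝ) / M) (fun i => ((c i : ℝ) + 1) / M) = (1 / M : ℝ) ^ k := by
  unfold vl
  rw [Finset.prod_congr rfl fun i _ => show ((c i : ℝ) + 1) / M - (c i : ℝ) / M = 1 / M by ring,
    Finset.prod_const, Finset.card_univ, Fintype.card_fin]

theorem grid_bd (hm : MF m) (hb : ∀ (k : ℕ) (a b : Fin k → ℝ), Dis a b →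
    m k a b ≤ ∏ i, (b i - a i)) {M : ℕ} (hM : 1 ≤ M) (B : Finset ℤ) :
    0 ≤ grid m M B ∧ grid m M B ≤ 1 := by
  have hM' : (0 : ℝ) < M := by exact_mod_cast hM
  have hd := dis_emb hM _ (B.orderEmbOfFin rfl).strictMono
  constructor
  · exact mul_nonneg (by positivity) (hm.nonneg _ _ _ hd)
  · have h1 := hb _ _ _ hd
    have h2 := vl_cell M (B.orderEmbOfFin rfl)
    unfold vl at h2
    rw [h2] at h1
    unfold grid
    calc (M : ℝ) ^ B.card * m B.card _ _ ≤ (M : ℝ) ^ B.card * (1 / M : ℝ) ^ B.card :=
          mul_le_mul_of_nonneg_left h1 (by positivity)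
      _ = 1 := by rw [← mul_pow, mul_one_div_cancel hM'.ne', one_pow]

/-- the step functions -/
noncomputable def st (m : Mom) (M k : ℕ) (x : Fin k → ℝ) : ℝ :=
  grid m M (Finset.univ.image fun i => ⌊(M : ℝ) * x i⌋)

theorem st_meas (m : Mom) (M k : ℕ) : Measurable (st m M k) := by
  have h1 : Measurable fun (x : Fin k → ℝ) (i : Fin k) => ⌊(M : ℝ) * x i⌋ := by
    refine measurable_pi_lambda _ fun i => ?_
    exact Int.measurable_floor.comp ((measurable_pi_apply i).const_mul _)
  have h2 : Measurable fun c : Fin k → ℤ => grid m M (Finset.univ.image c) :=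
    Measurable.of_discrete
  exact h2.comp h1

theorem st_cell (hm : MF m) {M : ℕ} (hM : 1 ≤ M) {k : ℕ} (c : Fin k → ℤ) (hc : StrictMono c) :
    m k (fun i => (c i : ℝ) / M) (fun i => ((c i : ℝ) + 1) / M) =
      ∫ x in bx (fun i => (c i : ℝ) / M) (fun i => ((c i : ℝ) + 1) / M), st m M k x := by
  have hM' : (0 : ℝ) < M := by exact_mod_cast hM
  have h1 : ∀ x ∈ bx (fun i => (c i : ℝ) / M) (fun i => ((c i : ℝ) + 1) / M),
      st m M k x = (M : ℝ) ^ k * m k (fun i => (c i : ℝ) / M) (fun i => ((c i : ℝ) + 1) / M) := by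
    intro x hx
    rw [← grid_image M c hc]
    unfold st
    congr 2
    funext i
    have h2 := Set.mem_univ_pi.1 hx i
    rw [Int.floor_eq_iff]
    obtain ⟨h3, h4⟩ := h2
    rw [div_le_iff₀ hM'] at h3
    rw [lt_div_iff₀ hM'] at h4
    exact ⟨by linarith, by linarith⟩
  rw [setIntegral_congr_fun (bx_meas _ _) h1, setIntegral_const,
    bx_vol fun i => ((dis_emb hM c hc).1 i).le, vl_cell, smul_eq_mul, ← mul_assoc, ← mul_pow,
    one_div_mul_cancel hM'.ne', one_pow, one_mul]

end grd

/-! ### generic points -/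

theorem null_diff {k : ℕ} {i j : Fin k} (hij : i ≠ j) (n : ℝ) :
    volume {x : Fin k → ℝ | x i - x j = n} = 0 := by
  let K : Submodule ℝ (Fin k → ℝ) :=
    LinearMap.ker ((LinearMap.proj i : (Fin k → ℝ) →ₗ[ℝ] ℝ) -
      (LinearMap.proj j : (Fin k → ℝ) →ₗ[ℝ] ℝ))
  have hK : K ≠ ⊤ := by
    intro h
    have h1 : (Pi.single i (1 : ℝ) : Fin k → ℝ) ∈ K := by
      rw [h]
      trivial
    rw [LinearMap.mem_ker] at h1
    simp [hij.symm] at h1
  have h0 := Measure.addHaar_submodule (volume : Measure (Fin k → ℝ)) K hK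
  have h1 : {x : Fin k → ℝ | x i - x j = n} =
      (fun x => x + (-(Pi.single i n : Fin k → ℝ))) ⁻¹' (K : Set (Fin k → ℝ)) := by
    ext x
    simp only [Set.mem_setOf_eq, Set.mem_preimage, SetLike.mem_coe, K, LinearMap.mem_ker,
      LinearMap.sub_apply, LinearMap.proj_apply, Pi.add_apply, Pi.neg_apply, Pi.single_eq_same,
      Pi.single_eq_of_ne hij.symm]
    constructor
    · intro h
      linarith
    · intro h
      linarith
  rw [h1, measure_preimage_add_right, h0]

theorem ae_gen (k : ℕ) : ∀ᵐ x : Fin k → ℝ, ∀ i j, i ≠ j → NI (x i) (x j) := by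
  rw [ae_all_iff]
  intro i
  rw [ae_all_iff]
  intro j
  by_cases hij : i = j
  · exact Eventually.of_forall fun x h => absurd hij h
  · have h1 : ∀ᵐ x : Fin k → ℝ, ∀ n : ℤ, x i - x j ≠ n := by
      rw [ae_all_iff]
      intro n
      rw [ae_iff]
      simp only [ne_eq, not_not]
      exact null_diff hij n
    filter_upwards [h1] with x hx _
    exact hx

/-! ### inner boxes of the grid -/

theorem tend_ceil (y : ℝ) : Tendsto (fun M : ℕ => (⌈(M : ℝ) * y⌉ : ℝ) / M) atTop (𝓝 y) := by
  have h1 : Tendsto (fun M : ℕ => y + 1 / (M : ℝ)) atTop (𝓝 (y + 0)) :=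
    tendsto_const_nhds.add tendsto_one_div_atTop_nhds_zero_nat
  rw [add_zero] at h1
  refine tendsto_of_tendsto_of_tendsto_of_le_of_le' tendsto_const_nhds h1 ?_ ?_
  · filter_upwards [eventually_ge_atTop 1] with M hM
    have hM' : (0 : ℝ) < M := by exact_mod_cast hM
    rw [le_div_iff₀ hM', mul_comm]
    exact Int.le_ceil _
  · filter_upwards [eventually_ge_atTop 1] with M hM
    have hM' : (0 : ℝ) < M := by exact_mod_cast hM
    rw [div_le_iff₀ hM', add_mul, one_div_mul_cancel hM'.ne', mul_comm y]
    exact (Int.ceil_lt_add_one _).le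

theorem tend_floor (y : ℝ) : Tendsto (fun M : ℕ => (⌊(M : ℝ) * y⌋ : ℝ) / M) atTop (𝓝 y) := by
  have h1 : Tendsto (fun M : ℕ => y - 1 / (M : ℝ)) atTop (𝓝 (y - 0)) :=
    tendsto_const_nhds.sub tendsto_one_div_atTop_nhds_zero_nat
  rw [sub_zero] at h1
  refine tendsto_of_tendsto_of_tendsto_of_le_of_le' h1 tendsto_const_nhds ?_ ?_
  · filter_upwards [eventually_ge_atTop 1] with M hM
    have hM' : (0 : ℝ) < M := by exact_mod_cast hM
    rw [le_div_iff₀ hM', sub_mul, one_div_mul_cancel hM'.ne', mul_comm y]
    linarith [Int.lt_floor_add_one ((M : ℝ) * y)]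
  · filter_upwards [eventually_ge_atTop 1] with M hM
    have hM' : (0 : ℝ) < M := by exact_mod_cast hM
    rw [div_le_iff₀ hM', mul_comm y]
    exact Int.floor_le _

theorem t_BOX : S_BOX := by
  classical
  intro m hm hbd hlim k a b hab
  -- the functional of intervals
  have hA : Ad (m k) := by
    refine ⟨hm.nonneg k, fun a b h => hbd k a b h, ?_⟩
    intro a b i c h h1 h2
    exact hm.add k a b i c h h1 h2
  have hI : ∀ M : ℕ, 1 ≤ M → Ad fun a b => ∫ x in bx a b, st m M k x := fun M hM =>
    ad_int (st_meas m M k) (fun x => (grid_bd hm hbd hM _).1) (fun x => (grid_bd hm hbd hM _).2)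
  -- the inner boxes
  have hev : ∀ᶠ M : ℕ in atTop, ∀ i, (⌈(M : ℝ) * a i⌉ : ℝ) / M < (⌊(M : ℝ) * b i⌋ : ℝ) / M := by
    rw [eventually_all]
    intro i
    exact (tend_ceil (a i)).eventually_lt (tend_floor (b i)) (hab.1 i)
  have hvl : Tendsto (fun M : ℕ => vl a b - vl (fun i => (⌈(M : ℝ) * a i⌉ : ℝ) / M)
      (fun i => (⌊(M : ℝ) * b i⌋ : ℝ) / M)) atTop (𝓝 (vl a b - vl a b)) := by
    refine tendsto_const_nhds.sub ?_
    exact tendsto_finset_prod _ fun i _ => (tend_floor (b i)).sub (tend_ceil (a i))
  rw [sub_self] at hvl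
  have hdiff : ∀ᶠ M : ℕ in atTop, |m k a b - ∫ x in bx a b, st m M k x| ≤
      2 * (vl a b - vl (fun i => (⌈(M : ℝ) * a i⌉ : ℝ) / M)
        (fun i => (⌊(M : ℝ) * b i⌋ : ℝ) / M)) := by
    filter_upwards [hev, eventually_ge_atTop 1] with M hM1 hM
    have hM' : (0 : ℝ) < M := by exact_mod_cast hM
    have e1 : ∀ i, a i ≤ (⌈(M : ℝ) * a i⌉ : ℝ) / M := by
      intro i
      rw [le_div_iff₀ hM', mul_comm]
      exact Int.le_ceil _
    have e2 : ∀ i, (⌊(M : ℝ) * b i⌋ : ℝ) / M ≤ b i := by
      intro i
      rw [div_le_iff₀ hM', mul_comm (b i)]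
      exact Int.floor_le _
    have c1 := close hA hab e1 hM1 e2
    have c2 := close (hI M hM) hab e1 hM1 e2
    have c3 := cells_eq hA (hI M hM) hM (fun c hc => st_cell hm hM c hc)
      (∑ i, (⌊(M : ℝ) * b i⌋ - ⌈(M : ℝ) * a i⌉)).toNat (fun i => ⌈(M : ℝ) * a i⌉)
      (fun i => ⌊(M : ℝ) * b i⌋) (fun i => by
        have := (div_lt_div_iff_of_pos_right hM').1 (hM1 i)
        exact_mod_cast this) (fun i j hij => by
        have h1 : (M : ℝ) * b i ≤ M * a j := mul_le_mul_of_nonneg_left (hab.2 i j hij) hM'.le
        exact (Int.floor_le_floor h1).trans (Int.floor_le_ceil _)) le_rfl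
    rw [c3] at c1
    rw [abs_sub_comm] at c2
    have c4 := abs_sub_le (m k a b) (∫ x in bx (fun i => (⌈(M : ℝ) * a i⌉ : ℝ) / M)
        (fun i => (⌊(M : ℝ) * b i⌋ : ℝ) / M), st m M k x) (∫ x in bx a b, st m M k x)
    linarith
  -- dominated convergence
  have hconv : Tendsto (fun M : ℕ => ∫ x in bx a b, st m M k x) atTop
      (𝓝 (∫ x in bx a b, sdet x)) := by
    refine tendsto_integral_filter_of_dominated_convergence (fun _ => (1 : ℝ)) ?_ ?_ ?_ ?_
    · exact Eventually.of_forall fun M => (st_meas m M k).aestronglyMeasurable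
    · filter_upwards [eventually_ge_atTop 1] with M hM
      refine Eventually.of_forall fun x => ?_
      have h0 : 0 ≤ st m M k x := (grid_bd hm hbd hM _).1
      rw [Real.norm_of_nonneg h0]
      exact (grid_bd hm hbd hM _).2
    · exact integrableOn_const (bx_fin a b)
    · refine ae_restrict_of_ae ?_
      filter_upwards [ae_gen k] with x hx
      have hinj : Function.Injective x := by
        intro i j hij
        by_contra hne
        exact hx i j hne 0 (by rw [hij, sub_self, Int.cast_zero])
      have hG : Gen (Finset.univ.image x) := by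
        intro y hy y' hy' hne
        obtain ⟨i, _, rfl⟩ := Finset.mem_image.1 hy
        obtain ⟨j, _, rfl⟩ := Finset.mem_image.1 hy'
        exact hx i j (fun h => hne (by rw [h]))
      have h1 := hlim _ hG
      rw [gue_image x hinj] at h1
      refine h1.congr fun M => ?_
      unfold st
      rw [Finset.image_image]
      rfl
  have h1 : Tendsto (fun M : ℕ => m k a b - ∫ x in bx a b, st m M k x) atTop (𝓝 0) := by
    have h2 := hvl.const_mul 2
    rw [mul_zero] at h2
    exact squeeze_zero_norm' (by
      filter_upwards [hdiff] with M hM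
      rw [Real.norm_eq_abs]
      exact hM) h2
  have h3 := (tendsto_const_nhds (x := m k a b)).sub hconv
  have h4 := tendsto_nhds_unique h1 h3
  have h5 : bx a b =ᵐ[volume] (Set.univ.pi fun i => Set.Ioc (a i) (b i)) :=
    (Measure.univ_pi_Ico_ae_eq_Icc).trans (Measure.univ_pi_Ioc_ae_eq_Icc).symm
  rw [← setIntegral_congr_set h5]
  linarith

end Pool.Agent.Y447.SR4
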